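import Mathlib
import Pool.Agent.X173.SGA
import Pool.Agent.X173.SGB

namespace Pool.Agent.Results.MP_eab7e5_al.MovingWalls
open Pool.Agent.X173.SGA

/-- There are a group `G` and a strongly `G`-graded ring `R ≠ 0` which is graded simple, satisfies
`C_R(R_e) = Z(R_e)`, and is not simple. -/
theorem result : ∃ (G : Type) (_ : Group G) (R : Type) (_ : Ring R) (A : G → AddSubgroup R),
    Nontrivial R ∧ IsGrading A ∧ IsStrong A ∧
    (∀ I : TwoSidedIdeal R, IsGradedIdeal A I → I = ⊥ ∨ I = ⊤) ∧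
    {r : R | ∀ a ∈ A 1, r * a = a * r} = {r : R | r ∈ A 1 ∧ ∀ a ∈ A 1, r * a = a * r} ∧
    ∃ I : TwoSidedIdeal R, I ≠ ⊥ ∧ I ≠ ⊤ := by
  haveI := Pool.Agent.X173.SGB.nontriv
  refine ⟨Pool.Agent.X173.SGB.K, inferInstance,
    SkewMonoidAlgebra Pool.Agent.X173.SGB.C (Circle × Pool.Agent.X173.SGB.K), inferInstance,
    piece Circle Pool.Agent.X173.SGB.C, inferInstance, isGrading, isStrong, ?_, ?_, ?_⟩
  · intro I hI
    exact gradedSimple Pool.Agent.X173.SGB.hA Pool.Agent.X173.SGB.hB I hI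
  · ext r
    constructor
    · intro hr
      exact ⟨centralizer_le Pool.Agent.X173.SGB.hB Pool.Agent.X173.SGB.hC r hr, hr⟩
    · intro hr
      exact hr.2
  · exact not_simple Pool.Agent.X173.SGB.hD

end Pool.Agent.Results.MP_eab7e5_al.MovingWalls
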